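import Pool.Agent.Y136.RT.Lines

/-!
# MP_9f00ad_co: generators of complete classes and strongly base-orderable matroids of rank three

Definitions. `MatClass`, `IsComplete` (complete classes of finite matroids), `SBO`, `BO`,
`FinitelyGenerated`: `Pool.Agent.Helper666.FinGen.Defs`. `GeneratedBy P` is the smallest complete
class containing the class `P`, `AtMost c` is the class of the matroids with at most `c` elements,
`SBO3` is the class of the simple strongly base-orderable matroids of rank three (with ground set
the whole type) and `threePointLines N` is the set of the dependent flats of `N` with exactly three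
elements.

The statement has five parts.

1. A simple matroid of any rank on `v` points which belongs to the complete class generated by all
   matroids with at most `c ≥ 2` elements has at most `c v` three-point lines.
2. For every `n ≥ 1` there is a simple strongly base-orderable matroid of rank three with `7 n`
   points and at least `n ^ 2` three-point lines; it does not belong to the complete class generated
   by all matroids with at most `c ≥ 2` elements if `7 c < n`. (The linear order is optimal: every
   matroid with `v` points belongs to the class generated by the matroids with at most `v`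
   elements.)
3. A class `𝒞` which contains the simple strongly base-orderable matroids of rank three is not
   generated, as a complete class, by any set of matroids of bounded size; some simple strongly
   base-orderable matroid of rank three is outside.
4. For such a class `𝒞` the complete classes generated by the members of `𝒞` with at most `c`
   elements, `c = 1, 2, …`, form an infinite strictly increasing chain (up to repetitions): the
   class for `49 c + 7` is strictly larger than the one for `c ≥ 2`.
5. In particular neither the strongly base-orderable nor the base-orderable matroids are finitely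
   generated (both classes contain `SBO3`), and no class containing `SBO3` is.
-/

open Set Pool.Agent.Helper666.FinGen Pool.Agent.Y136.RT

namespace Pool.Agent.Results.MP_9f00ad_co.RankThree

/-- `GeneratedBy P` is a complete class if all the members of `P` are finite (so it is the smallest
complete class containing `P`). -/
theorem generatedBy_isComplete {P : MatClass} (hP : ∀ (β : Type) (M : Matroid β), P β M → M.Finite) :
    IsComplete (GeneratedBy P) where
  finite := fun _ h => (h (ExprClass 2 ⊔ fun _ M => M.Finite) (by
    have key : (ExprClass 2 ⊔ fun _ M => M.Finite : MatClass) = fun _ M => M.Finite := by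
      funext α M
      exact propext ⟨fun h => h.elim (fun h => h.1) id, Or.inr⟩
    rw [key]
    exact {
      finite := fun M h => h
      iso := by
        rintro α β M N h ⟨e, -⟩
        have : Finite M.E := h.ground_finite.to_subtype
        have : Finite N.E := Finite.of_equiv _ e
        exact ⟨Set.toFinite _⟩
      restrict := fun M A h hA => ⟨h.ground_finite.subset hA⟩
      contract := fun M A h _ => ⟨h.ground_finite.subset Set.sdiff_subset⟩
      dual := fun M h => ⟨h.ground_finite⟩
      sum := by
        intro α β M N h h'
        refine ⟨?_⟩
        rw [Matroid.sum_ground]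
        exact (h.ground_finite.image _).union (h'.ground_finite.image _)
      truncate := by
        intro α M N k h hN
        exact truncation_finite hN
      induce := by
        intro T _ Γ M₀ A N h hN
        exact finite_matroid N }) (fun β M h => Or.inr (hP β M h))).elim (fun h => h.1) id
  iso M N h hMN C hC hCP := hC.iso M N (h C hC hCP) hMN
  restrict M A h hA C hC hCP := hC.restrict M A (h C hC hCP) hA
  contract M A h hA C hC hCP := hC.contract M A (h C hC hCP) hA
  dual M h C hC hCP := hC.dual M (h C hC hCP)
  sum M N h h' C hC hCP := hC.sum M N (h C hC hCP) (h' C hC hCP)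
  truncate M N k h hN C hC hCP := hC.truncate M N k (h C hC hCP) hN
  induce Γ M₀ A N h hN C hC hCP := hC.induce Γ M₀ A N (h C hC hCP) hN

/-- Some strongly base-orderable matroid of rank three is not generated by matroids of bounded
size. -/
theorem exists_not_generated {P : MatClass} {c : ℕ}
    (hP : ∀ (β : Type) (M : Matroid β), P β M → AtMost c β M) :
    ∃ (α : Type) (N : Matroid α), SBO3 α N ∧ ¬ GeneratedBy P α N := by
  obtain ⟨M, hM, hM'⟩ := exists_sbo3_not_generated (c := c + 2) (n := 7 * (c + 2) + 1) (by omega)
    (by omega)
  exact ⟨_, M, hM, fun h => hM' (h.mono fun β M h => ⟨(hP β M h).1, (hP β M h).2.trans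
    (Nat.le_add_right _ _)⟩)⟩

theorem not_fg {C : MatClass} (hC : ∀ (α : Type) (M : Matroid α), SBO3 α M → C α M) :
    ¬ FinitelyGenerated C := by
  rintro ⟨k, E, M, hfin, h⟩
  obtain ⟨α, N, hN, hN'⟩ := exists_not_generated
    (P := fun β L => ∃ i : Fin k, ∃ h : E i = β, h ▸ M i = L) (c := ∑ i, (M i).E.ncard) (by
      rintro β L ⟨i, rfl, rfl⟩
      exact ⟨hfin i, Finset.single_le_sum (f := fun i => (M i).E.ncard) (fun _ _ => Nat.zero_le _)
        (Finset.mem_univ i)⟩)
  refine hN' fun D hD hD' => (h α N).1 (hC α N hN) D hD fun i => hD' _ _ ⟨i, rfl, rfl⟩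

/-- **Complete classes containing the strongly base-orderable matroids of rank three.** -/
theorem result :
    (∀ (c : ℕ) (V : Type) [Finite V] (N : Matroid V), 2 ≤ c → IsSimple N →
      GeneratedBy (AtMost c) V N → (threePointLines N).ncard ≤ c * Nat.card V) ∧
    (∀ n : ℕ, 0 < n → ∃ N : Matroid (Fin (7 * n)), SBO3 (Fin (7 * n)) N ∧
      n ^ 2 ≤ (threePointLines N).ncard ∧
      ∀ c : ℕ, 2 ≤ c → 7 * c < n → ¬ GeneratedBy (AtMost c) (Fin (7 * n)) N) ∧
    (∀ C : MatClass, (∀ (α : Type) (M : Matroid α), SBO3 α M → C α M) →
      (∀ (P : MatClass) (c : ℕ), (∀ (β : Type) (M : Matroid β), P β M → AtMost c β M) →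
        (∃ (α : Type) (N : Matroid α), SBO3 α N ∧ ¬ GeneratedBy P α N) ∧
        ¬ ∀ (α : Type) (N : Matroid α), C α N ↔ GeneratedBy P α N) ∧
      (∀ c : ℕ, 2 ≤ c →
        (∀ (α : Type) (N : Matroid α), GeneratedBy (fun β M => C β M ∧ AtMost c β M) α N →
          GeneratedBy (fun β M => C β M ∧ AtMost (49 * c + 7) β M) α N) ∧
        ∃ (α : Type) (N : Matroid α), SBO3 α N ∧
          GeneratedBy (fun β M => C β M ∧ AtMost (49 * c + 7) β M) α N ∧
          ¬ GeneratedBy (fun β M => C β M ∧ AtMost c β M) α N) ∧
      ¬ FinitelyGenerated C) ∧
    (∀ (α : Type) (M : Matroid α), SBO3 α M → SBO α M) ∧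
    (∀ (α : Type) (M : Matroid α), SBO α M → BO α M) ∧
    ¬ FinitelyGenerated SBO ∧ ¬ FinitelyGenerated BO := by
  refine ⟨fun c V _ N hc hs h => lines_le_of_generated hc hs h, ?_, ?_, fun α M h => h.1,
    fun α M h => h.bo, not_fg fun α M h => h.1, not_fg fun α M h => h.1.bo⟩
  · intro n hn
    obtain ⟨N, hN, hl⟩ := exists_sbo hn
    refine ⟨N, hN, hl, fun c h2 hc h => ?_⟩
    have h1 := hl.trans (lines_le_of_generated h2 hN.2.1 h)
    rw [Nat.card_eq_fintype_card, Fintype.card_fin] at h1
    have h3 : n * n ≤ (7 * c) * n := by nlinarith
    have h4 : n ≤ 7 * c := Nat.le_of_mul_le_mul_right h3 (by omega)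
    omega
  · intro C hC
    refine ⟨fun P c hP => ⟨exists_not_generated hP, fun h => ?_⟩, fun c hc => ⟨?_, ?_⟩, not_fg hC⟩
    · obtain ⟨α, N, hN, hN'⟩ := exists_not_generated hP
      exact hN' ((h α N).1 (hC α N hN))
    · intro α N h
      exact h.mono fun β M h => ⟨h.1, h.2.1, h.2.2.trans (by omega)⟩
    · obtain ⟨M, hM, hM'⟩ := exists_sbo3_not_generated (c := c) (n := 7 * c + 1) hc (by omega)
      refine ⟨_, M, hM, generatedBy_self ⟨hC _ _ hM, hM.1.1, ?_⟩, fun h => hM' (h.mono fun β M h =>
        h.2)⟩
      rw [hM.2.1.1, ncard_univ, Nat.card_eq_fintype_card, Fintype.card_fin]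
      omega

end Pool.Agent.Results.MP_9f00ad_co.RankThree
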